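import Pool.Agent.Helper98.EX.Stmts2

/-!
# HT: heights at the time `m1`
-/

namespace Pool.Agent.Helper98.EX

open Finset Filter
open scoped Topology

section htm

variable {N : ℕ}

theorem htm_left {η : Cfg N} {q : ℕ} (hq : q ≤ N)
    (h : ∀ i, i < q → occ η i = false) : ht η q = ht η 0 := by
  induction q with
  | zero => rfl
  | succ q ih =>
    have h1 := ih (by omega) (fun i hi => h i (by omega))
    rw [← h1]
    exact ((not_occ_iff_ht η (by omega : q < N)).1 (h q (by omega))).symm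

theorem htm_right {η : Cfg N} {q : ℕ}
    (h : ∀ i, q ≤ i → i < N → occ η i = true) : ht η q = N - q := by
  rcases le_or_gt N q with hq | hq
  · rw [ht_ge hq]; omega
  · have key : ∀ d, q + d ≤ N → ht η (N - d) = d := by
      intro d
      induction d with
      | zero => intro _; rw [ht_ge (by omega)]
      | succ d ih =>
        intro hd
        have e : N - (d + 1) + 1 = N - d := by omega
        rw [ht_succ _ (by omega : N - (d + 1) < N), e, ih (by omega),
          if_pos (h _ (by omega) (by omega))]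
        omega
    have h1 := key (N - q) (by omega)
    have e : N - (N - q) = q := by omega
    rwa [e] at h1

/-- heights of sorted states -/
theorem htm_sorted {k m0 : ℕ} (hk : k ≤ N) {ξ : Cfg N} (hξ : ht ξ 0 = k)
    (hs : ξ ∈ (sorted 0 (N - k - m0) (N - k + m0) N : Set (Cfg N))) (x : ℕ) :
    min k (N - x) ≤ ht ξ x + m0 := by
  obtain ⟨ha, hb⟩ := hs
  have h1 := htm_left (η := ξ) (q := N - k - m0) (by omega) (fun i hi => ha i (Nat.zero_le i) hi)
  have h2 := htm_right (η := ξ) (q := N - k + m0) (fun i hi hi' => hb i hi hi')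
  rcases le_or_gt x (N - k - m0) with hx | hx
  · have h3 := ht_anti ξ hx
    omega
  · rcases le_or_gt (N - k + m0) x with hx' | hx'
    · have h3 := ht_le_sub ξ hx'
      omega
    · have h3 := ht_anti ξ hx'.le
      omega

end htm

theorem st_HT (hCONC : ST_CONC) : ST_HT := by
  intro ε m0 hε
  obtain ⟨C0, hC0, hconc⟩ := hCONC
  have hcast := tendsto_natCast_atTop_atTop (R := ℝ)
  have evL : ∀ᶠ N : ℕ in atTop, 8 * C0 + Real.log 4 ≤ Real.log N :=
    (Real.tendsto_log_atTop.comp hcast).eventually (eventually_ge_atTop _)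
  have evE : ∀ᶠ N : ℕ in atTop, 4 / ε < (N : ℝ) := hcast.eventually (eventually_gt_atTop _)
  obtain ⟨N0, hN0⟩ := eventually_atTop.1 (evL.and (evE.and (eventually_ge_atTop 3)))
  refine ⟨N0, fun N k r l m1 hN hk hadm hε4 hJ => ?_⟩
  obtain ⟨hL, hE, hN3⟩ := hN0 N hN
  have hNpos : (0 : ℝ) < N := by
    have : 0 < N := by omega
    exact_mod_cast this
  have hN1 : (1 : ℝ) ≤ N := by
    have : 1 ≤ N := by omega
    exact_mod_cast this
  have hlog4 : 0 < Real.log 4 := Real.log_pos (by norm_num)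
  have hlog : 0 < Real.log N := by linarith
  set J : ℝ := (m1 : ℝ) / (2 * N) + 1 with hJdef
  have hJpos : 0 < J := by positivity
  set a : ℝ := Real.sqrt J * Real.log N ^ 2 with hadef
  have ha0 : 0 ≤ a := by positivity
  have hsJ : Real.log N ≤ Real.sqrt J := Real.le_sqrt_of_sq_le hJ
  have haJ : a ≤ J * Real.log N := by
    have h1 : Real.sqrt J * Real.sqrt J = J := Real.mul_self_sqrt hJpos.le
    have h2 : 0 ≤ Real.sqrt J := Real.sqrt_nonneg J
    calc a = Real.sqrt J * Real.log N * Real.log N := by rw [hadef]; ring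
      _ ≤ Real.sqrt J * Real.sqrt J * Real.log N := by
          apply mul_le_mul_of_nonneg_right _ hlog.le
          exact mul_le_mul_of_nonneg_left hsJ h2
      _ = J * Real.log N := by rw [h1]
  have hexp : a ^ 2 / (C0 * J * Real.log N ^ 2) = Real.log N ^ 2 / C0 := by
    rw [hadef, mul_pow, Real.sq_sqrt hJpos.le]
    field_simp
  have hC : ∀ x, pr r l (fun _ => full N) m1 {ξ | a ≤ |(ht ξ x : ℝ) -
      ev r l (fun _ => full N) m1 (fun ζ => (ht ζ x : ℝ)) (bot N k)|} (bot N k) ≤
      2 * Real.exp (-(Real.log N ^ 2 / C0)) := by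
    intro x
    have h1 := hconc N r l (fun _ => full N) m1 x a (bot N k) hN3 hadm ha0 haJ
    rwa [hexp] at h1
  -- numerical estimates
  have hbig : 7 * Real.log N + Real.log 4 ≤ Real.log N ^ 2 / C0 := by
    rw [le_div_iff₀ hC0]
    nlinarith
  have hsmall : 4 * (N : ℝ) * Real.exp (-(Real.log N ^ 2 / C0)) ≤ (N : ℝ) ^ (-6 : ℝ) := by
    have h1 : Real.exp (-(Real.log N ^ 2 / C0)) ≤ Real.exp (-(7 * Real.log N + Real.log 4)) :=
      Real.exp_le_exp.2 (by linarith)
    have h2 : Real.exp (-(7 * Real.log N + Real.log 4)) = (N : ℝ) ^ (-6 : ℝ) / (4 * N) := by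
      have e1 : -(7 * Real.log N + Real.log 4) = Real.log N * (-6) - Real.log 4 - Real.log N := by
        ring
      rw [e1, Real.exp_sub, Real.exp_sub, Real.exp_log hNpos, Real.exp_log (by norm_num),
        Real.rpow_def_of_pos hNpos, div_div]
    rw [h2] at h1
    calc 4 * (N : ℝ) * Real.exp (-(Real.log N ^ 2 / C0))
        ≤ 4 * (N : ℝ) * ((N : ℝ) ^ (-6 : ℝ) / (4 * N)) :=
          mul_le_mul_of_nonneg_left h1 (by positivity)
      _ = (N : ℝ) ^ (-6 : ℝ) := by field_simp
  have hunion : ((N : ℝ) + 1) * (2 * Real.exp (-(Real.log N ^ 2 / C0))) ≤ (N : ℝ) ^ (-6 : ℝ) := by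
    refine le_trans ?_ hsmall
    have h1 := Real.exp_pos (-(Real.log N ^ 2 / C0))
    nlinarith
  have hlt : 2 * Real.exp (-(Real.log N ^ 2 / C0)) < ε / 4 := by
    have h1 := Real.exp_pos (-(Real.log N ^ 2 / C0))
    have h2 : 2 * Real.exp (-(Real.log N ^ 2 / C0)) ≤ (N : ℝ) ^ (-6 : ℝ) := by
      refine le_trans ?_ hsmall
      nlinarith
    have h3 : (N : ℝ) ^ (-6 : ℝ) ≤ (N : ℝ) ^ (-1 : ℝ) :=
      Real.rpow_le_rpow_of_exponent_le hN1 (by norm_num)
    rw [Real.rpow_neg_one] at h3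
    have h4 : (N : ℝ)⁻¹ < ε / 4 := by
      rw [inv_lt_comm₀ hNpos (by positivity)]
      rwa [inv_div]
    linarith
  have hbot : ht (bot N k) 0 = k := ht_bot_zero hk
  have part1 : ∀ x, x ≤ N → ((min k (N - x) : ℕ) : ℝ) - m0 - a ≤
      ev r l (fun _ => full N) m1 (fun ξ => (ht ξ x : ℝ)) (bot N k) := by
    intro x _
    by_contra hcon
    rw [not_le] at hcon
    have h1 := pr_mono_sector (N := N) hadm (k := k) (fun _ => full N) m1
      (A := sorted 0 (N - k - m0) (N - k + m0) N) (B := {ξ | a ≤ |(ht ξ x : ℝ) -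
      ev r l (fun _ => full N) m1 (fun ζ => (ht ζ x : ℝ)) (bot N k)|}) (fun ξ hξ hs => by
        have h2 := htm_sorted hk hξ hs x
        have h3 : ((min k (N - x) : ℕ) : ℝ) ≤ (ht ξ x : ℝ) + m0 := by exact_mod_cast h2
        rw [Set.mem_ofPred_eq]
        refine le_trans ?_ (le_abs_self _)
        linarith) hbot
    have h2 := hC x
    linarith
  refine ⟨part1, ?_⟩
  have hsub : {ξ : Cfg N | ∃ x, x ≤ N ∧ (ht ξ x : ℝ) + (m0 + 2 * a) < (min k (N - x) : ℕ)} ⊆
      ⋃ x ∈ Finset.range (N + 1), {ξ | a ≤ |(ht ξ x : ℝ) -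
      ev r l (fun _ => full N) m1 (fun ζ => (ht ζ x : ℝ)) (bot N k)|} := by
    rintro ξ ⟨x, hx, hlt'⟩
    simp only [Set.mem_iUnion, exists_prop]
    refine ⟨x, Finset.mem_range.2 (by omega), ?_⟩
    have h1 := part1 x hx
    rw [Set.mem_ofPred_eq, abs_sub_comm]
    refine le_trans ?_ (le_abs_self _)
    linarith
  refine (pr_mono hadm _ m1 hsub _).trans ((pr_biUnion hadm _ m1 _ _ _).trans ?_)
  refine (Finset.sum_le_sum fun x _ => hC x).trans ?_
  rw [Finset.sum_const, Finset.card_range, nsmul_eq_mul]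
  push_cast
  exact hunion

end Pool.Agent.Helper98.EX
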