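import Pool.Agent.Helper98.EX.Stmts3

/-!
# JEN: lower moments
-/

namespace Pool.Agent.Helper98.EX

open Finset MeasureTheory ProbabilityTheory Filter
open scoped Topology

theorem st_JEN : ST_JEN := by
  intro Ω _ P X s hX hs hMom
  haveI := hX.prob
  have hs0 : 0 < s := by linarith
  set f : Ω → ℝ := fun ω => (1 - X 0 ω) / X 0 ω with hf
  have hf0 : ∀ ω, 0 ≤ f ω := fun ω => by
    have h := hX.rng 0 ω
    exact div_nonneg (by linarith [h.2]) h.1.le
  have hmeas : Measurable f := (measurable_const.sub (hX.meas 0)).div (hX.meas 0)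
  have hM : ∀ p : ℝ, 0 ≤ p → Mom P X p = ∫⁻ ω, ‖f ω‖ₑ ^ p ∂P := by
    intro p hp
    unfold Mom
    apply lintegral_congr
    intro ω
    rw [Real.enorm_eq_ofReal (hf0 ω), ENNReal.ofReal_rpow_of_nonneg (hf0 ω) hp]
  have h1 := eLpNorm'_le_eLpNorm'_of_exponent_le (μ := P) (f := f) (p := 1) (q := s) one_pos hs
    hmeas.aestronglyMeasurable
  unfold eLpNorm' at h1
  rw [← hM 1 zero_le_one, ← hM s hs0.le] at h1
  simp only [div_one, ENNReal.rpow_one] at h1
  have h2 : Mom P X s ^ (1 / s) < 1 := ENNReal.rpow_lt_one hMom (by positivity)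
  have h3 : Mom P X 1 < 1 := lt_of_le_of_lt h1 h2
  have key : ∀ m : ENNReal, m < 1 → m ≤ ENNReal.ofReal m.toReal := by
    intro m hm
    rw [ENNReal.ofReal_toReal (ne_top_of_lt hm)]
  have key2 : ∀ m : ENNReal, m < 1 → m.toReal < 1 := by
    intro m hm
    have := (ENNReal.toReal_lt_toReal (ne_top_of_lt hm) ENNReal.one_ne_top).2 hm
    simpa using this
  refine ⟨max (1 / 2) (max (Mom P X 1).toReal (Mom P X s).toReal), ?_, ?_, ?_, ?_⟩
  · exact lt_of_lt_of_le (by norm_num) (le_max_left _ _)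
  · exact max_lt (by norm_num) (max_lt (key2 _ h3) (key2 _ hMom))
  · exact (key _ h3).trans (ENNReal.ofReal_le_ofReal
      ((le_max_left _ _).trans (le_max_right _ _)))
  · exact (key _ hMom).trans (ENNReal.ofReal_le_ofReal
      ((le_max_right _ _).trans (le_max_right _ _)))

end Pool.Agent.Helper98.EX
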