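import Pool.Agent.Helper98.EX.Stmts3

/-!
# MAINN: cutoff for nestling and marginal nestling laws
-/

namespace Pool.Agent.Helper98.EX

open Finset MeasureTheory ProbabilityTheory Filter
open scoped Topology

section mainn

variable {N : ℕ}

theorem mainn_left {η : Cfg N} {q : ℕ} (hq : q ≤ N)
    (h : ∀ i, i < q → occ η i = false) : ht η q = ht η 0 := by
  induction q with
  | zero => rfl
  | succ q ih =>
    have h1 := ih (by omega) (fun i hi => h i (by omega))
    rw [← h1]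
    exact ((not_occ_iff_ht η (by omega : q < N)).1 (h q (by omega))).symm

theorem mainn_left' {η : Cfg N} {q : ℕ} (hq : q ≤ N) (h : ht η q = ht η 0) :
    ∀ i, i < q → occ η i = false := by
  intro i hi
  rw [not_occ_iff_ht η (by omega)]
  have h1 := ht_anti η (Nat.zero_le i)
  have h2 := ht_succ_le η i
  have h3 := ht_anti η (show i + 1 ≤ q from hi)
  omega

theorem mainn_right {η : Cfg N} {q : ℕ}
    (h : ∀ i, q ≤ i → i < N → occ η i = true) : ht η q = N - q := by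
  rcases le_or_gt N q with hq | hq
  · rw [ht_ge hq]; omega
  · have key : ∀ d, q + d ≤ N → ht η (N - d) = d := by
      intro d
      induction d with
      | zero => intro _; rw [ht_ge (by omega)]
      | succ d ih =>
        intro hd
        have e : N - (d + 1) + 1 = N - d := by omega
        rw [ht_succ _ (by omega : N - (d + 1) < N), e, ih (by omega),
          if_pos (h _ (by omega) (by omega))]
        omega
    have h1 := key (N - q) (by omega)
    have e : N - (N - q) = q := by omega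
    rwa [e] at h1

theorem mainn_right' {η : Cfg N} {q : ℕ} (h : ht η q = N - q) :
    ∀ i, q ≤ i → i < N → occ η i = true := by
  intro i h1 h2
  have a1 := ht_le_sub η h1
  have a2 := ht_le η (i + 1)
  have a3 := ht_le_succ η i
  have a4 := ht_le η i
  rw [occ_iff_ht η h2]
  omega

/-- sorted states form an increasing set on the sector -/
theorem mainn_inc (k q1 q2 : ℕ) (hq1 : q1 ≤ N) :
    Inc k (ind (sorted 0 q1 q2 N : Set (Cfg N))) := by
  apply pr_Inc_ind
  rintro η ξ h1 h2 h3 ⟨ha, hb⟩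
  refine ⟨?_, ?_⟩
  · intro i _ hi
    have e1 := mainn_left hq1 (fun i hi => ha i (Nat.zero_le i) hi)
    have e2 := h3 q1
    have e3 := ht_anti ξ (Nat.zero_le q1)
    exact mainn_left' hq1 (by omega) i hi
  · intro i hi hiN
    have e1 := mainn_right hb
    have e2 := h3 q2
    have e3 := ht_le ξ q2
    exact mainn_right' (by omega) i hi hiN

theorem mainn_adm {w : ℕ → ℝ} (hw : ∀ x, 0 < w x ∧ w x ≤ 1) : Adm N (rE w) (lE w) := by
  intro x _ _
  have h1 := hw (x - 1)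
  have h2 := hw x
  unfold rE lE
  exact ⟨h1.1, h1.2, by linarith, by linarith⟩

/-- mass of the unsorted states under the stationary law -/
theorem mainn_stat (hSTATTAIL : ST_STATTAIL) (hSTC : ST_STC) {k m0 : ℕ} {w : ℕ → ℝ}
    {π : Conf N k → ℝ} {e : ℝ} (hN : 1 ≤ N) (hk : k ≤ N) (hw : ∀ x, 0 < w x ∧ w x ≤ 1)
    (hπ : IsStatC w N k π) (hm : (N - k) + m0 ≤ N)
    (ht : tails N k (rE w) (modl N (lE w)) m0 ≤ e) :
    ∑ η, extC π η * ind (sorted 0 (N - k - m0) (N - k + m0) N)ᶜ η ≤ e := by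
  obtain ⟨_, _, h3⟩ := hSTC N k w hN hk hw
  have hstat := h3 π hπ
  have hadm : Adm N (rE w) (lE w) := mainn_adm hw
  have hN0 : (0 : ℝ) < N := by exact_mod_cast hN
  have hpos : (0 : ℝ) < (N : ℝ) ^ (-100 : ℝ) := Real.rpow_pos_of_pos hN0 _
  have hle1 : (N : ℝ) ^ (-100 : ℝ) ≤ 1 :=
    Real.rpow_le_one_of_one_le_of_nonpos (by exact_mod_cast hN) (by norm_num)
  have hadm' : Adm N (rE w) (modl N (lE w)) := by
    intro x h1 h2
    obtain ⟨a1, a2, a3, a4⟩ := hadm x h1 h2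
    refine ⟨a1, a2, ?_, ?_⟩
    · exact le_max_of_le_left a3
    · exact max_le a4 hle1
  have hPos : Pos N (modl N (lE w)) := fun x _ _ => lt_of_lt_of_le hpos (le_max_right _ _)
  have := hSTATTAIL N k (rE w) (lE w) (modl N (lE w)) (extC π) (N - k - m0) (N - k + m0) hN hk hadm
    hadm' hPos (fun x _ _ => le_max_left _ _) hstat (by omega) (by omega) hm
  exact this.trans ht

end mainn

theorem st_MAINN (hENV : ST_ENV) (hSTR : ST_STR) (hDT1 : ST_DT1) (hGS : ST_GS)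
    (hTRAPLOW : ST_TRAPLOW) (hSTRLOW : ST_STRLOW) (hLOW : ST_LOW) (hSTATTAIL : ST_STATTAIL)
    (hSTC : ST_STC) (hCUT : ST_CUT) : ST_MAINN := by
  intro Ω _ P X s hX hs hMom hnest c ε δ ηp hc hε hε2 hδ hδ1 hηp
  obtain ⟨γ, η0, Cs, C1, c1, c2, m0, hγ, hγ1, hη0, hη01, hCs, hC1, hc1, hc11, hc2, hc24, Ne, hE⟩ :=
    hENV Ω P X s hX hs hMom c (ηp / 2) (ε / 32) hc (by positivity) (by positivity)
  obtain ⟨K, Nd, hK, hD⟩ :=
    hDT1 ε δ γ η0 Cs C1 c1 m0 hε (by linarith) hδ hγ hγ1 hη0 hη01 hCs hC1 hc1 hc11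
  obtain ⟨cs, hcs, hS⟩ := hSTRLOW ε c c2 m0 hε hc hc2
  obtain ⟨m', hm', hm'K⟩ : ∃ m' : ℕ, 1 ≤ m' ∧ K ≤ cs * m' := by
    refine ⟨⌈K / cs⌉₊ + 1, by omega, ?_⟩
    have h1 := Nat.le_ceil (K / cs)
    rw [div_le_iff₀ hcs] at h1
    push_cast
    nlinarith
  obtain ⟨Ns, hS⟩ := hS m' hm'
  obtain ⟨Nr, hR⟩ := hSTR Ω P X hX hnest (ηp / 2) c2 m' (by positivity) hc2 hc24 hm'
  obtain ⟨Ng, hG⟩ := hGS γ hγ hγ1
  obtain ⟨ct, Nt, hct, hT⟩ := hTRAPLOW ε c c2 m0 hε hc hc2
  obtain ⟨cl, Nl, hcl, hL⟩ := hLOW ε c m0 hε hc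
  obtain ⟨Nc, hC⟩ := hCUT ε δ cl hε hε2 hδ hδ1 hcl
  -- asymptotic inequalities
  have ev1 : ∀ᶠ N : ℕ in atTop, (N : ℝ) ^ (-5 : ℝ) ≤ ε / 8 := by
    have h1 : Tendsto (fun N : ℕ => (N : ℝ) ^ (-5 : ℝ)) atTop (𝓝 0) :=
      (tendsto_rpow_neg_atTop (by norm_num : (0 : ℝ) < 5)).comp tendsto_natCast_atTop_atTop
    exact h1.eventually_le_const (by positivity)
  have ev2 : ∀ᶠ N : ℕ in atTop, (N : ℝ) ^ (-γ : ℝ) ≤ Real.sqrt cl := by
    have h1 : Tendsto (fun N : ℕ => (N : ℝ) ^ (-γ : ℝ)) atTop (𝓝 0) :=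
      (tendsto_rpow_neg_atTop hγ).comp tendsto_natCast_atTop_atTop
    exact h1.eventually_le_const (by positivity)
  have ev3 : ∀ᶠ N : ℕ in atTop, Real.log N ≤ Real.sqrt ct * (N : ℝ) ^ γ := by
    have h1 := (isLittleO_log_rpow_atTop hγ).bound (show 0 < Real.sqrt ct by positivity)
    have h2 := tendsto_natCast_atTop_atTop (R := ℝ)
    filter_upwards [h2.eventually h1, eventually_ge_atTop 1] with N h3 h4
    have h5 : (0 : ℝ) ≤ (N : ℝ) ^ γ := by positivity
    rw [Real.norm_eq_abs, Real.norm_eq_abs, abs_of_nonneg h5] at h3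
    exact (le_abs_self _).trans h3
  obtain ⟨N1, hN1⟩ := eventually_atTop.1 (ev1.and (ev2.and (ev3.and ((eventually_ge_atTop 3).and
    ((eventually_ge_atTop Ne).and ((eventually_ge_atTop Nd).and ((eventually_ge_atTop Ns).and
    ((eventually_ge_atTop Nr).and ((eventually_ge_atTop Ng).and ((eventually_ge_atTop Nt).and
    ((eventually_ge_atTop Nl).and (eventually_ge_atTop Nc))))))))))))
  refine ⟨N1, fun N k hN hk1 hk2 => ?_⟩
  obtain ⟨i1, i2, i3, iN3, iNe, iNd, iNs, iNr, iNg, iNt, iNl, iNc⟩ := hN1 N hN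
  have hNpos : (0 : ℝ) < N := by
    have : 0 < N := by omega
    exact_mod_cast this
  have hkN : k ≤ N := by
    have : (k : ℝ) ≤ N := by nlinarith
    exact_mod_cast this
  have hE' := hE N k iNe hk1 hk2
  have hR' := hR N iNr
  refine le_trans (measure_mono ?_) (le_trans (measure_union_le _ _)
    (le_trans (add_le_add hE' hR') ?_))
  swap
  · rw [← ENNReal.ofReal_add (by positivity) (by positivity)]
    exact ENNReal.ofReal_le_ofReal (by linarith)
  intro ω hω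
  by_contra hcon
  rw [Set.mem_union, not_or] at hcon
  obtain ⟨hcon1, hcon2⟩ := hcon
  simp only [Set.mem_ofPred_eq, not_not] at hcon1 hcon2
  obtain ⟨w, as, hGE, halt⟩ := hcon1
  obtain ⟨A, hA1, hA2, hA3⟩ := hcon2
  obtain ⟨π, hπ, hbad⟩ := hω
  apply hbad
  have hw : ∀ x, 0 < EE X ω x ∧ EE X ω x ≤ 1 := fun x => hX.rng x ω
  have hadm := hGE.adm
  obtain ⟨_, hGt, _, _⟩ := hG N k (rE (EE X ω)) (lE (EE X ω)) w m0 η0 as Cs C1 c1 (ε / 32) iNg hη0
    hGE
  have hm0 : (N - k) + m0 ≤ N := by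
    have h1 := hGE.m0w
    have h2 := hGE.hB
    omega
  refine hC N k (EE X ω) π (sorted 0 (N - k - m0) (N - k + m0) N) iNc hkN hw hπ
    (mainn_inc k _ _ (by omega)) ?_ ?_
  · exact mainn_stat hSTATTAIL hSTC (by omega) hkN hw hπ hm0 (hGt.trans (by linarith))
  · intro m1 hm1
    have low1 := hL N k _ _ m1 iNl hk1 hk2 hadm hm1
    refine ⟨low1, ?_⟩
    have low2 := hS N k _ _ m1 A iNs hk1 hk2 hadm hA1 hA2 hA3 hm1
    have hKN : K * N ≤ (m1 : ℝ) / (2 * N) := by
      refine le_trans ?_ low2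
      exact mul_le_mul_of_nonneg_right hm'K hNpos.le
    refine hD N k _ _ w m1 as iNd hGE hm1 hKN ?_
    -- the largest travel weight is small
    have has : 0 ≤ as := le_trans zero_le_one hGE.as1
    have hN3 : (N : ℝ) ^ (3 * γ) = (N : ℝ) ^ (2 * γ) * (N : ℝ) ^ γ := by
      rw [← Real.rpow_add hNpos]; ring_nf
    have hNγ : 0 < (N : ℝ) ^ γ := Real.rpow_pos_of_pos hNpos _
    have hN2 : 0 < (N : ℝ) ^ (2 * γ) := Real.rpow_pos_of_pos hNpos _
    have hNm : (N : ℝ) ^ γ * (N : ℝ) ^ (-γ) = 1 := by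
      rw [← Real.rpow_add hNpos]; simp
    have hNm0 : 0 < (N : ℝ) ^ (-γ) := Real.rpow_pos_of_pos hNpos _
    have hsq : (N : ℝ) ^ (1 / 2 : ℝ) = Real.sqrt N := (Real.sqrt_eq_rpow _).symm
    rcases halt with h | ⟨A', B', a, hA'1, hA'2, hA'3, hA'4, ha, ha1, ha2⟩
    · -- first alternative
      calc (N : ℝ) ^ (2 * γ) * as = (N : ℝ) ^ (3 * γ) * as * (N : ℝ) ^ (-γ) := by
            rw [hN3]
            linear_combination (-(N : ℝ) ^ (2 * γ) * as) * hNm
        _ ≤ Real.sqrt N * (N : ℝ) ^ (-γ) := by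
            rw [hsq] at h
            exact mul_le_mul_of_nonneg_right h hNm0.le
        _ ≤ Real.sqrt N * Real.sqrt cl := mul_le_mul_of_nonneg_left i2 (Real.sqrt_nonneg _)
        _ = Real.sqrt (cl * N) := by
            rw [← Real.sqrt_mul hNpos.le, mul_comm]
        _ ≤ Real.sqrt ((m1 : ℝ) / (2 * N)) := Real.sqrt_le_sqrt low1
    · -- second alternative
      have low3 := hT N k _ _ m1 A' B' w a iNt hk1 hk2 hadm hA'1 hA'2 hA'3 hA'4 hGE.wlog ha ha1 hm1
      have hlog : 0 < Real.log N := by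
        apply Real.log_pos
        have : 1 < N := by omega
        exact_mod_cast this
      have ha4 : a ^ (1 / 4 : ℝ) = Real.sqrt (Real.sqrt a) := by
        rw [Real.sqrt_eq_rpow, Real.sqrt_eq_rpow, ← Real.rpow_mul ha.le]
        norm_num
      have hstep : Real.sqrt ct * Real.sqrt N * Real.sqrt (Real.sqrt a) / Real.log N ≤
          Real.sqrt ((m1 : ℝ) / (2 * N)) := by
        apply Real.le_sqrt_of_sq_le
        refine le_trans (le_of_eq ?_) low3
        rw [div_pow, mul_pow, mul_pow, Real.sq_sqrt hct.le, Real.sq_sqrt hNpos.le,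
          Real.sq_sqrt (Real.sqrt_nonneg a)]
      refine le_trans ?_ hstep
      rw [le_div_iff₀ hlog]
      calc (N : ℝ) ^ (2 * γ) * as * Real.log N
          ≤ (N : ℝ) ^ (2 * γ) * as * (Real.sqrt ct * (N : ℝ) ^ γ) :=
            mul_le_mul_of_nonneg_left i3 (by positivity)
        _ = Real.sqrt ct * ((N : ℝ) ^ (3 * γ) * as) := by rw [hN3]; ring
        _ ≤ Real.sqrt ct * ((N : ℝ) ^ (1 / 2 : ℝ) * a ^ (1 / 4 : ℝ)) :=
            mul_le_mul_of_nonneg_left ha2 (Real.sqrt_nonneg _)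
        _ = Real.sqrt ct * Real.sqrt N * Real.sqrt (Real.sqrt a) := by rw [hsq, ha4]; ring

end Pool.Agent.Helper98.EX
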