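import Pool.Agent.Helper98.EX.Stmts2

set_option autoImplicit false

namespace Pool.Agent.Helper98.EX

open Finset

theorem move_RR_nonneg {N : ℕ} {r l : ℕ → ℝ} (h : Adm N r l) {z x : ℕ} (hx : x < N) :
    0 ≤ RR r l z x := by
  unfold RR
  refine Finset.prod_nonneg fun b hb => ?_
  rw [Finset.mem_Ioc] at hb
  obtain ⟨h1, _, h3, _⟩ := h b (by omega) (by omega)
  exact div_nonneg h3 h1.le

theorem move_atl_nonneg {N : ℕ} {r l : ℕ → ℝ} (h : Adm N r l) {η0 : ℝ} (hη : 0 < η0) {w y : ℕ}
    (hy : y + 1 < N) : 0 ≤ atl r l η0 w y := by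
  unfold atl
  refine Finset.sum_nonneg fun d _ => ?_
  obtain ⟨h1, _, _, _⟩ := h (y + 1) (by omega) hy
  exact div_nonneg (mul_nonneg (pow_nonneg (by linarith) _) (move_RR_nonneg h (by omega))) h1.le

theorem st_MOVE (h1 : ST_WALK) (h2 : ST_WCOND) : ST_MOVE := by
  intro N r l η0 as eps w S a0 a m E τ η hadm hpos hη hη1 hw has heps ha0 ham hmE hEN haS hES hS
    hcnt hocc hatl hrr hfar
  obtain ⟨c, hac, hcm, hc⟩ := hocc
  set lam : ℝ := η0 / (4 * as) with hlam
  have hlam0 : 0 ≤ lam := by rw [hlam]; positivity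
  let v : ℕ → ℝ := fun y => if y < m + w then lam * atl r l η0 w y else 0
  have hv : ∀ y, y < m + w → v y = lam * atl r l η0 w y := fun y hy => if_pos hy
  have hatl0 : ∀ y, y < m + w → 0 ≤ atl r l η0 w y := fun y hy =>
    move_atl_nonneg hadm hη (by omega)
  have hv0 : ∀ y, 0 ≤ v y := by
    intro y
    by_cases hy : y < m + w
    · rw [hv y hy]; exact mul_nonneg hlam0 (hatl0 y hy)
    · simp only [v, if_neg hy]; exact le_rfl
  have hcond := h2 N r l η0 as w a (m + w) hadm hη hη1 hw has (by omega)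
    (fun y hy hy' => hatl y (by omega) hy') hrr
  have hwalk := h1 N r l v lam S a E m (m + w) c τ η hadm hpos hac (by omega) (by omega) (by omega)
    hEN haS hES hS hcnt hc hv0 hlam0 (by
      intro y hy hy'
      have hk := hcond y hy hy'
      rw [hv y hy']
      by_cases hya : y = a
      · rw [if_pos hya] at hk ⊢
        exact hk
      · rw [if_neg hya] at hk ⊢
        rw [hv (y - 1) (by omega)]
        exact hk)
  refine hwalk.trans (add_le_add ?_ ?_)
  · refine Real.exp_le_exp.2 ?_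
    have hs1 : ∑ y ∈ Finset.Ico c (m + w), v y = lam * ∑ y ∈ Finset.Ico c (m + w), atl r l η0 w y := by
      rw [Finset.mul_sum]
      refine Finset.sum_congr rfl fun y hy => ?_
      rw [Finset.mem_Ico] at hy
      exact hv y hy.2
    have hs2 : ∑ y ∈ Finset.Ico c (m + w), atl r l η0 w y ≤
        ∑ y ∈ Finset.Ico a0 (m + w), atl r l η0 w y := by
      refine Finset.sum_le_sum_of_subset_of_nonneg (Finset.Ico_subset_Ico_left (by omega)) ?_
      intro y hy _
      rw [Finset.mem_Ico] at hy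
      exact hatl0 y hy.2
    rw [hs1]
    have hs3 := mul_le_mul_of_nonneg_left hs2 hlam0
    have hs4 : lam * (∑ y ∈ Finset.Ico a0 (m + w), atl r l η0 w y - (τ : ℝ) / (2 * N)) =
        lam * ∑ y ∈ Finset.Ico a0 (m + w), atl r l η0 w y - lam * τ / (2 * N) := by ring
    rw [hs4]
    linarith
  · have hb : ∀ z ∈ Finset.Ico a m, RR r l z (m + w) ≤ eps := by
      intro z hz
      rw [Finset.mem_Ico] at hz
      exact hfar z (m + w) (by omega) (by omega)
    have hs := Finset.sum_le_card_nsmul _ _ _ hb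
    rw [Nat.card_Ico, nsmul_eq_mul] at hs
    refine hs.trans ?_
    have hcast : ((m - a : ℕ) : ℝ) ≤ N := by exact_mod_cast (by omega : m - a ≤ N)
    exact mul_le_mul_of_nonneg_right hcast heps

end Pool.Agent.Helper98.EX
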